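import Mathlib

namespace Pool.Agent.Results.MP_2af528_co.Eleven

/-- An interval partition: a family of pairwise disjoint intervals covering the poset. -/
def IsIntPart {S : Type} [PartialOrder S] (P : Set (Set S)) : Prop :=
  (∀ B ∈ P, ∃ x y, x ≤ y ∧ B = Set.Icc x y) ∧ P.PairwiseDisjoint id ∧ ⋃₀ P = Set.univ

def IsOptimum {S : Type} [PartialOrder S] (P : Set (Set S)) : Prop :=
  IsIntPart P ∧ ∀ Q : Set (Set S), IsIntPart Q → P.ncard ≤ Q.ncard

theorem result : ∃ (S : Type) (_ : Finite S) (_ : Nonempty S) (_ : PartialOrder S),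
    ∀ P : Set (Set S), IsOptimum P → ¬ ∃ x y, IsMin x ∧ IsMax y ∧ x ≤ y ∧ Set.Icc x y ∈ P := by
  let R : Fin 11 → Fin 11 → Bool := fun a b =>
    (([2047, 1594, 1988, 520, 528, 544, 1088, 1152, 1280, 512, 1024] : List ℕ).getD a 0).testBit b
  let inst : PartialOrder (Fin 11) :=
    { le := fun a b => R a b = true
      lt := fun a b => R a b = true ∧ ¬ R b a = true
      lt_iff_le_not_ge := fun _ _ => Iff.rfl
      le_refl := by decide +kernel
      le_trans := by decide +kernel
      le_antisymm := by decide +kernel }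
  refine ⟨Fin 11, inferInstance, inferInstance, inst, ?_⟩
  rintro P ⟨⟨h1, h2, h3⟩, hmin⟩ ⟨x, y, hx, hy, -, hP⟩
  let I : Fin 11 → Fin 11 → Set (Fin 11) := fun a b => {z | R a z = true ∧ R z b = true}
  have hQ : @IsIntPart _ inst {I 0 0, I 1 9, I 2 10} := by
    refine ⟨?_, ?_, ?_⟩
    · rintro B (rfl | rfl | rfl)
      exacts [⟨0, 0, rfl, rfl⟩, ⟨1, 9, rfl, rfl⟩, ⟨2, 10, rfl, rfl⟩]
    · have d : ∀ a b c d, (∀ z, ¬ ((R a z = true ∧ R z b = true) ∧ R c z = true ∧ R z d = true)) →
          Disjoint (I a b) (I c d) := fun a b c d h =>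
        Set.disjoint_left.2 fun z p q => h z ⟨p, q⟩
      rintro B (rfl | rfl | rfl) C (rfl | rfl | rfl) h <;>
        first | exact absurd rfl h | exact d _ _ _ _ (by decide +kernel)
    · have : ∀ z, (R 0 z = true ∧ R z 0 = true) ∨ (R 1 z = true ∧ R z 9 = true) ∨
          (R 2 z = true ∧ R z 10 = true) := by decide +kernel
      ext z
      simpa [I] using this z
  have h4 : P.ncard ≤ 3 := by
    refine (hmin _ hQ).trans ((Set.ncard_insert_le _ _).trans ?_)
    have := Set.ncard_insert_le (I 1 9) {I 2 10}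
    rw [Set.ncard_singleton] at this
    omega
  have key : ∀ t : Fin 3 → Fin 11, (∀ i, ¬ R (t i) y = true) →
      (∀ i u, R u (t i) = true → u = t i ∨ (R x u = true ∧ R u y = true)) →
      (∀ i j, R (t i) (t j) = true → i = j) → False := by
    intro t t1 t2 t3
    have hB : ∀ i, ∃ v, I (t i) v ∈ P ∧ t i ∈ I (t i) v := by
      intro i
      obtain ⟨B, hB, hi⟩ : t i ∈ ⋃₀ P := h3 ▸ Set.mem_univ _
      obtain ⟨u, v, huv, rfl⟩ := h1 B hB
      rcases t2 i u hi.1 with rfl | h
      · exact ⟨v, hB, hi⟩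
      · by_cases e : I u v = I x y
        · exact absurd (e ▸ hi : t i ∈ I x y).2 (t1 i)
        · exact absurd h (Set.disjoint_left.1 (h2 hB hP e) ⟨inst.le_refl u, huv⟩)
    choose v hv hv' using hB
    let f : Option (Fin 3) → Set (Fin 11) := fun o => o.elim (I x y) fun i => I (t i) (v i)
    have hf : Function.Injective f := by
      rintro (_ | i) (_ | j) h
      · rfl
      · exact absurd (h.ge (hv' j)).2 (t1 j)
      · exact absurd (h.le (hv' i)).2 (t1 i)
      · rw [t3 i j (h.ge (hv' j)).1]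
    have hs : Set.range f ⊆ P := by
      rintro _ ⟨_ | i, rfl⟩
      exacts [hP, hv i]
    have := Set.ncard_le_ncard hs
    rw [Set.ncard_range_of_injective hf] at this
    simp at this
    omega
  have hx0 : x = 0 := by
    have : ∀ x, (∀ b, R b x = true → R x b = true) → x = 0 := by decide +kernel
    exact this x hx
  have hy0 : y = 9 ∨ y = 10 := by
    have : ∀ y, (∀ b, R y b = true → R b y = true) → y = 9 ∨ y = 10 := by decide +kernel
    exact this y hy
  subst hx0
  rcases hy0 with rfl | rfl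
  · exact key ![6, 7, 8] (by decide +kernel) (by decide +kernel) (by decide +kernel)
  · exact key ![3, 4, 5] (by decide +kernel) (by decide +kernel) (by decide +kernel)

end Pool.Agent.Results.MP_2af528_co.Eleven
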